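import Mathlib

namespace Pool.Agent.Results.MP_70eb0a_al.DicyclicNotSemiperfect

open Function

universe u

/-- `ℤ_(p)`: the rationals whose denominators are prime to `p`. -/
def Zloc (p : ℕ) [hp : Fact p.Prime] : Subring ℚ where
  carrier := {q | ¬ p ∣ q.den}
  mul_mem' := by
    intro a b ha hb h
    rcases (Nat.Prime.dvd_mul hp.out).1 (h.trans (Rat.mul_den_dvd a b)) with h | h
    exacts [ha h, hb h]
  one_mem' := by simpa using hp.out.ne_one
  add_mem' := by
    intro a b ha hb h
    rcases (Nat.Prime.dvd_mul hp.out).1 (h.trans (Rat.add_den_dvd a b)) with h | h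
    exacts [ha h, hb h]
  zero_mem' := by simpa using hp.out.ne_one
  neg_mem' := by
    intro a ha
    simpa using ha

/-- Semiperfect ring, first form: every finitely generated left module has a projective cover,
a surjection from a projective module whose kernel is superfluous. -/
def HasProjectiveCovers (R : Type) [Ring R] : Prop :=
  ∀ (M : Type) [AddCommGroup M] [Module R M], Module.Finite R M →
    ∃ (P : Type u) (_ : AddCommGroup P) (_ : Module R P) (f : P →ₗ[R] M),
      Module.Projective R P ∧ Surjective f ∧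
        ∀ N : Submodule R P, LinearMap.ker f ⊔ N = ⊤ → N = ⊤

/-- Semiperfect ring, second form: `R / J(R)` is semisimple and idempotents lift modulo `J(R)`. -/
def Semiperfect (R : Type) [Ring R] : Prop :=
  IsSemisimpleRing (R ⧸ Ring.jacobson R) ∧
    ∀ y : R ⧸ Ring.jacobson R, IsIdempotentElem y →
      ∃ e : R, IsIdempotentElem e ∧ Ideal.Quotient.mk (Ring.jacobson R) e = y

/-- The relations `[B] - [A] - [C]` for short exact sequences `0 → A → B → C → 0`. -/
def sesRel (R : Type) [Ring R] : Set (FreeAbelianGroup (FGModuleCat.{0} R)) :=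
  {x | ∃ (A B C : FGModuleCat.{0} R) (f : A →ₗ[R] B) (g : B →ₗ[R] C),
    Injective f ∧ Surjective g ∧ Exact f g ∧
      x = FreeAbelianGroup.of B - FreeAbelianGroup.of A - FreeAbelianGroup.of C}

/-- The Grothendieck group `G_0(R)` of finitely generated left `R`-modules. -/
abbrev G0 (R : Type) [Ring R] :=
  FreeAbelianGroup (FGModuleCat.{0} R) ⧸ AddSubgroup.closure (sesRel R)

/-- The class `[M]` in `G_0(R)`. -/
def cls {R : Type} [Ring R] (M : FGModuleCat.{0} R) : G0 R :=
  QuotientAddGroup.mk (FreeAbelianGroup.of M)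

/-- `L` is an `AG`-lattice in `V`: finitely generated over `A`, spanning `V` over `ℚ` and
stable under `G`. -/
def IsLattice {A G V : Type} [CommRing A] [Group G] [AddCommGroup V] [Module ℚ V] [Module A V]
    (ρ : Representation ℚ G V) (L : Submodule A V) : Prop :=
  L.FG ∧ Submodule.span ℚ (L : Set V) = ⊤ ∧ ∀ g, ∀ v ∈ L, ρ g v ∈ L

/-- `π : L → M` is onto with kernel `pL`. -/
def IsModP (p : ℕ) {L M : Type} [AddCommGroup L] [AddCommGroup M] (π : L →+ M) : Prop :=
  Surjective π ∧ ∀ v : L, π v = 0 ↔ ∃ w : L, v = p • w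

/-- The action of a group element on a `kG`-module. -/
noncomputable def act (k : Type) {G M : Type} [CommRing k] [Group G] [AddCommGroup M]
    [Module (MonoidAlgebra k G) M] (g : G) (m : M) : M :=
  MonoidAlgebra.of k G g • m

/-- `π : L → M` is `G`-equivariant. -/
def IsEquivariant (k : Type) {G V M : Type} [CommRing k] [Group G] [AddCommGroup V]
    [Module ℚ V] [AddCommGroup M] [Module (MonoidAlgebra k G) M]
    (ρ : Representation ℚ G V) (L : Set V) (π : L → M) : Prop :=
  ∀ (g : G) (v w : L), (w : V) = ρ g v → π w = act k g (π v)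

/-- The `kG`-module `M` is `L / pL` for an `AG`-lattice `L` in `V`: there is a `G`-equivariant
additive surjection `π : L → M` with kernel `pL`. -/
def IsReductionOf (p : ℕ) (A k : Type) {G V : Type} [CommRing A] [CommRing k] [Group G]
    [AddCommGroup V] [Module ℚ V] [Module A V] (ρ : Representation ℚ G V)
    (M : Type) [AddCommGroup M] [Module (MonoidAlgebra k G) M] : Prop :=
  ∃ L : Submodule A V, IsLattice ρ L ∧
    ∃ π : L →+ M, IsModP p π ∧ IsEquivariant k ρ (L : Set V) π

/-- The `ℚG`-module given by `ρ` is simple. -/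
def IsSimpleRep {G V : Type} [Group G] [AddCommGroup V] [Module ℚ V]
    (ρ : Representation ℚ G V) : Prop :=
  IsSimpleModule (MonoidAlgebra ℚ G) ρ.asModule

/-- `M` is a reduction `L / pL` of a simple `ℚG`-module `V`, with `L` a `ℤ_(p)G`-lattice. -/
def IsReduction (p : ℕ) [Fact p.Prime] (G : Type) [Group G] (M : Type) [AddCommGroup M]
    [Module (MonoidAlgebra (ZMod p) G) M] : Prop :=
  ∃ (V : Type) (_ : AddCommGroup V) (_ : Module ℚ V) (ρ : Representation ℚ G V),
    IsSimpleRep ρ ∧ IsReductionOf p (Zloc p) (ZMod p) ρ M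

/-- An indecomposable module. -/
def Indecomposable (R M : Type) [Ring R] [AddCommGroup M] [Module R M] : Prop :=
  Nontrivial M ∧ ∀ A B : Submodule R M, IsCompl A B → A = ⊥ ∨ B = ⊥

/-- The class of every finitely generated projective indecomposable module is a sum, with
non-negative integer coefficients, of classes of modules in `X`. -/
def ProjectivesAreSums (R : Type) [Ring R] (X : FGModuleCat.{0} R → Prop) : Prop :=
  ∀ P : FGModuleCat.{0} R, Module.Projective R P → Indecomposable R P →
    cls P ∈ AddSubmonoid.closure {x | ∃ M, X M ∧ x = cls M}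

/-- Condition (N): the class of every projective indecomposable `𝔽_p G`-module is a sum, with
non-negative integer coefficients, of classes of reductions of simple `ℚG`-modules. -/
def CondN (p : ℕ) [Fact p.Prime] (G : Type) [Group G] : Prop :=
  ProjectivesAreSums (MonoidAlgebra (ZMod p) G) fun M => IsReduction p G M

/-! ### Reduction modulo `2` -/

abbrev Z2 := Zloc 2

lemma den_ne (q : Z2) : (((q : ℚ).den : ℕ) : ZMod 2) ≠ 0 := by
  rw [Ne, ZMod.natCast_eq_zero_iff]
  exact q.2

def red : Z2 →+* ZMod 2 where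
  toFun q := ((q : ℚ) : ZMod 2)
  map_one' := by simp
  map_mul' a b := by
    simpa using Rat.cast_mul_of_ne_zero (den_ne a) (den_ne b)
  map_zero' := by simp
  map_add' a b := by
    simpa using Rat.cast_add_of_ne_zero (den_ne a) (den_ne b)

lemma red_eq_zero (q : Z2) : red q = 0 ↔ ∃ w : Z2, q = 2 * w := by
  constructor
  · intro h
    have h1 : (((q : ℚ).num : ℤ) : ZMod 2) = 0 := by
      have : ((q : ℚ) : ZMod 2) = 0 := h
      rw [Rat.cast_def, div_eq_zero_iff] at this
      exact this.resolve_right (den_ne q)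
    obtain ⟨k, hk⟩ := (ZMod.intCast_zmod_eq_zero_iff_dvd _ 2).1 h1
    refine ⟨⟨(k : ℚ) / ((q : ℚ).den : ℚ), ?_⟩, ?_⟩
    · intro hd
      apply q.2
      refine hd.trans ?_
      have := Rat.den_dvd k ((q : ℚ).den : ℤ)
      rw [Rat.divInt_eq_div] at this
      exact_mod_cast this
    · apply Subtype.ext
      have h2 := Rat.num_div_den (q : ℚ)
      rw [hk] at h2
      have h3 : ((2 : Z2) : ℚ) = 2 := rfl
      rw [Subring.coe_mul, h3]
      push_cast at h2
      linear_combination -h2
  · rintro ⟨w, rfl⟩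
    rw [map_mul, map_ofNat]
    have : (2 : ZMod 2) = 0 := rfl
    rw [this, zero_mul]

lemma unit_of_red (q : Z2) (h : red q ≠ 0) : IsUnit q := by
  have h0 : (q : ℚ) ≠ 0 := by
    intro h0
    apply h
    have : q = 0 := Subtype.ext h0
    rw [this, map_zero]
  have h1 : (((q : ℚ).num : ℤ) : ZMod 2) ≠ 0 := by
    intro h1
    apply h
    show ((q : ℚ) : ZMod 2) = 0
    rw [Rat.cast_def, h1, zero_div]
  refine IsUnit.of_mul_eq_one ⟨(q : ℚ)⁻¹, ?_⟩ (Subtype.ext (mul_inv_cancel₀ h0))
  intro hd
  rw [Rat.den_inv_of_ne_zero h0] at hd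
  apply h1
  rw [ZMod.intCast_zmod_eq_zero_iff_dvd]
  exact Int.natCast_dvd.2 hd

/-! ### The quaternion order -/

abbrev G := QuaternionGroup 3

abbrev Q (A : Type) [CommRing A] := QuaternionAlgebra A (-1) 1 (-1)

instance (A : Type) [CommRing A] [DecidableEq A] : DecidableEq (Q A) := fun x y =>
  decidable_of_iff (x.re = y.re ∧ x.imI = y.imI ∧ x.imJ = y.imJ ∧ x.imK = y.imK)
    QuaternionAlgebra.ext_iff.symm

def mapQ {A B : Type} [CommRing A] [CommRing B] (f : A →+* B) : Q A →+* Q B where
  toFun x := ⟨f x.re, f x.imI, f x.imJ, f x.imK⟩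
  map_one' := by ext <;> simp
  map_mul' x y := by ext <;> simp
  map_zero' := by ext <;> simp
  map_add' x y := by ext <;> simp

def psiF : G → Q ℤ
  | .a i => (⟨0, 1, 0, 0⟩ : Q ℤ) ^ i.val
  | .xa i => (⟨0, 0, 1, 0⟩ : Q ℤ) * (⟨0, 1, 0, 0⟩ : Q ℤ) ^ i.val

def psiZ : G →* Q ℤ where
  toFun := psiF
  map_one' := by decide +kernel
  map_mul' := by decide +kernel

abbrev R := MonoidAlgebra Z2 G

noncomputable def Psi : R →+* Q Z2 :=
  (MonoidAlgebra.lift Z2 (Q Z2) G ((mapQ (Int.castRingHom Z2)).toMonoidHom.comp psiZ)).toRingHom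

noncomputable def phi : R →+* Q (ZMod 2) := (mapQ red).comp Psi

lemma phi_single (g : G) (c : Z2) :
    phi (MonoidAlgebra.single g c) = red c • mapQ (Int.castRingHom (ZMod 2)) (psiF g) := by
  have : Psi (MonoidAlgebra.single g c) = c • mapQ (Int.castRingHom Z2) (psiF g) := by
    simp [Psi, psiZ]
  simp only [phi, RingHom.comp_apply, this]
  ext <;> simp [mapQ]

lemma phi_surj : Surjective phi := by
  intro b
  refine ⟨MonoidAlgebra.single (.a 0) (b.re.val : Z2) + MonoidAlgebra.single (.a 1) (b.imI.val : Z2)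
    + MonoidAlgebra.single (.xa 0) (b.imJ.val : Z2)
    + MonoidAlgebra.single (.xa 5) (b.imK.val : Z2), ?_⟩
  simp only [map_add, phi_single, map_natCast, ZMod.natCast_zmod_val]
  obtain ⟨w, x, y, z⟩ := b
  revert w x y z
  decide +kernel

lemma idem_Q (x : Q Z2) (h : x * x = x) : x = 0 ∨ x = 1 := by
  obtain ⟨⟨a, ha⟩, ⟨b, hb⟩, ⟨c, hc⟩, ⟨d, hd⟩⟩ := x
  rw [QuaternionAlgebra.mk_mul_mk, QuaternionAlgebra.mk.injEq] at h
  obtain ⟨h1, h2, h3, h4⟩ := h
  have e1 := congrArg Subtype.val h1
  have e2 := congrArg Subtype.val h2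
  have e3 := congrArg Subtype.val h3
  have e4 := congrArg Subtype.val h4
  push_cast at e1 e2 e3 e4
  by_cases ht : 2 * a + b - 1 = 0
  · exfalso
    have : a * a + a * b + b * b + c * c + c * d + d * d = 0 := by
      linear_combination (-1) * e1 + a * ht
    nlinarith [sq_nonneg (c + d), sq_nonneg c, sq_nonneg d, sq_nonneg (a + b), sq_nonneg a,
      sq_nonneg b, sq_nonneg (a - b), sq_nonneg (b - 1), sq_nonneg (b + 1)]
  · have hb0 : b = 0 := by
      apply mul_left_cancel₀ ht
      linear_combination e2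
    have hc0 : c = 0 := by
      apply mul_left_cancel₀ ht
      linear_combination e3
    have hd0 : d = 0 := by
      apply mul_left_cancel₀ ht
      linear_combination e4
    subst hb0 hc0 hd0
    have : a * (a - 1) = 0 := by linear_combination e1
    rcases mul_eq_zero.1 this with h | h
    · left
      subst h
      rfl
    · right
      have : a = 1 := by linarith
      subst this
      rfl

lemma phi_idem (e : R) (h : e * e = e) : phi e = 0 ∨ phi e = 1 := by
  rcases idem_Q (Psi e) (by rw [← map_mul, h]) with h | h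
  · left
    simp [phi, h]
  · right
    simp [phi, h]

lemma phi_jac (x : R) (hx : x ∈ Ring.jacobson R) : phi x = 0 := by
  rw [← Ideal.jacobson_bot, Ideal.mem_jacobson_iff] at hx
  have key : ∀ b : Q (ZMod 2), (∀ y : Q (ZMod 2), ∃ z : Q (ZMod 2), z * y * b + z - 1 = 0) →
      b = 0 := by
    have : ∀ b1 b2 b3 b4 : ZMod 2, (∀ y1 y2 y3 y4 : ZMod 2, ∃ z1 z2 z3 z4 : ZMod 2,
      (⟨z1, z2, z3, z4⟩ : Q (ZMod 2)) * ⟨y1, y2, y3, y4⟩ * ⟨b1, b2, b3, b4⟩ + ⟨z1, z2, z3, z4⟩ - 1
        = 0) → (⟨b1, b2, b3, b4⟩ : Q (ZMod 2)) = 0 := by decide +kernel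
    rintro ⟨b1, b2, b3, b4⟩ h
    apply this
    intro y1 y2 y3 y4
    obtain ⟨⟨z1, z2, z3, z4⟩, hz⟩ := h ⟨y1, y2, y3, y4⟩
    exact ⟨z1, z2, z3, z4, hz⟩
  apply key
  intro y
  obtain ⟨r, rfl⟩ := phi_surj y
  obtain ⟨z, hz⟩ := hx r
  refine ⟨phi z, ?_⟩
  have := congrArg phi (Ideal.mem_bot.1 hz)
  simpa using this

lemma two_jac (w : R) : (2 : Z2) • w ∈ Ring.jacobson R := by
  rw [← Ideal.jacobson_bot, Ideal.mem_jacobson_iff]
  intro y
  let f : R →ₗ[Z2] R := LinearMap.mulRight Z2 (y * ((2 : Z2) • w) + 1)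
  have hJ : Ideal.span {(2 : Z2)} ≤ Ideal.jacobson ⊥ := by
    rw [Ideal.span_le, Set.singleton_subset_iff, SetLike.mem_coe, Ideal.mem_jacobson_bot]
    intro c
    apply unit_of_red
    rw [map_add, (red_eq_zero _).2 ⟨c, rfl⟩]
    simp
  have hle : (⊤ : Submodule Z2 R) ≤ LinearMap.range f := by
    apply Submodule.le_of_le_smul_of_le_jacobson_bot Module.Finite.fg_top hJ
    intro r _
    have : r = f r + (2 : Z2) • (-(r * (y * w))) := by
      simp [f, mul_add]
    rw [this]
    exact Submodule.add_mem_sup ⟨r, rfl⟩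
      (Submodule.smul_mem_smul (Ideal.subset_span rfl) trivial)
  obtain ⟨z, hz⟩ := hle (Submodule.mem_top : (1 : R) ∈ ⊤)
  refine ⟨z, ?_⟩
  rw [Ideal.mem_bot, ← hz]
  simp [f, mul_add, mul_assoc]

def cx : G → ℤ
  | .a i => if i = 0 ∨ i = 1 ∨ i = 4 ∨ i = 5 then 1 else 0
  | .xa i => if i = 2 ∨ i = 4 then 1 else 0

noncomputable def el (c : G → ℤ) : R :=
  MonoidAlgebra.ofCoeff (Finsupp.equivFunOnFinite.symm fun g => (c g : Z2))

lemma el_sq : ∃ w : R, el cx * el cx - el cx = (2 : Z2) • w := by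
  have h : ∀ k : G, (∑ g : G, cx g * cx (g⁻¹ * k)) - cx k
      = 2 * (((∑ g : G, cx g * cx (g⁻¹ * k)) - cx k) / 2) := by decide +kernel
  refine ⟨el fun k => ((∑ g : G, cx g * cx (g⁻¹ * k)) - cx k) / 2, ?_⟩
  ext k
  rw [MonoidAlgebra.coeff_sub, Finsupp.sub_apply, MonoidAlgebra.coeff_mul_apply_left,
    Finsupp.sum_fintype _ _ (by simp)]
  have := congrArg (Int.cast : ℤ → Z2) (h k)
  push_cast at this
  simp only [el, MonoidAlgebra.coeff_smul_apply, Finsupp.coe_equivFunOnFinite_symm, smul_eq_mul]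
  rw [this]

lemma phi_el : phi (el cx) = ⟨0, 1, 1, 0⟩ := by
  have : el cx = ∑ g : G, MonoidAlgebra.single g (cx g : Z2) := by
    ext k
    simp [el, MonoidAlgebra.coeff_sum, Finsupp.single_apply]
  rw [this, map_sum]
  simp only [phi_single, map_intCast]
  decide +kernel

theorem not_semiperfect : ¬ Semiperfect R := by
  rintro ⟨-, h⟩
  obtain ⟨w, hw⟩ := el_sq
  obtain ⟨e, he, hq⟩ := h (Ideal.Quotient.mk _ (el cx)) (by
    rw [IsIdempotentElem, ← map_mul, Ideal.Quotient.eq, hw]
    exact two_jac w)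
  have h1 := phi_jac _ (Ideal.Quotient.eq.1 hq)
  rw [map_sub, phi_el, sub_eq_zero] at h1
  rcases phi_idem e he with h2 | h2 <;> rw [h2] at h1 <;> revert h1 <;> decide +kernel


/-! ### No projective cover -/

abbrev B := Q (ZMod 2)

def uu : B := ⟨0, 1, 1, 0⟩

/-- The left ideal `B * uu`, a module over `R` through `phi`. -/
def MM : Type := (Ideal.span {uu} : Ideal B)

noncomputable instance : AddCommGroup MM := inferInstanceAs (AddCommGroup (Ideal.span {uu} : Ideal B))

noncomputable instance : Module B MM := inferInstanceAs (Module B (Ideal.span {uu} : Ideal B))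

noncomputable instance : Module R MM := Module.compHom MM phi

def MM.val (m : MM) : B := Subtype.val m

lemma MM.ext {m n : MM} (h : m.val = n.val) : m = n := Subtype.ext h

noncomputable def gM : R →ₗ[R] MM where
  toFun r := (⟨phi r * uu, Ideal.mem_span_singleton'.2 ⟨phi r, rfl⟩⟩ : (Ideal.span {uu} : Ideal B))
  map_add' a b := MM.ext (by
    show phi (a + b) * uu = phi a * uu + phi b * uu
    rw [map_add, add_mul])
  map_smul' a b := MM.ext (by
    show phi (a * b) * uu = phi a * (phi b * uu)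
    rw [map_mul, mul_assoc])

lemma gM_val (r : R) : (gM r).val = phi r * uu := rfl

lemma gM_surj : Surjective gM := by
  intro m
  obtain ⟨b, hb⟩ := Ideal.mem_span_singleton'.1 (Subtype.property m)
  obtain ⟨r, rfl⟩ := phi_surj b
  exact ⟨r, MM.ext hb⟩

theorem no_cover : ¬ HasProjectiveCovers.{u} R := by
  intro h
  obtain ⟨P, _, _, f, hP, hf, hs⟩ := h MM (Module.Finite.of_surjective gM gM_surj)
  obtain ⟨k, hk⟩ := Module.projective_lifting_property f gM hf
  have hk' : ∀ r, f (k r) = gM r := fun r => LinearMap.congr_fun hk r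
  have hks : Surjective k := by
    rw [← LinearMap.range_eq_top]
    apply hs
    rw [eq_top_iff]
    intro p _
    obtain ⟨r, hr⟩ := gM_surj (f p)
    have : p = (p - k r) + k r := by abel
    rw [this]
    refine Submodule.add_mem_sup ?_ ⟨r, rfl⟩
    rw [LinearMap.mem_ker, map_sub, hk', hr, sub_self]
  obtain ⟨s, hs0⟩ := Module.projective_lifting_property k LinearMap.id hks
  have hs' : ∀ p, k (s p) = p := fun p => LinearMap.congr_fun hs0 p
  have hsk : ∀ r, s (k r) = r * s (k 1) := by
    intro r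
    rw [← smul_eq_mul, ← map_smul, ← map_smul, smul_eq_mul, mul_one]
  have he : s (k 1) * s (k 1) = s (k 1) := by rw [← hsk, hs']
  have hu : phi (s (k 1)) * uu = uu := by
    rw [← gM_val, ← hk', hs', hk', gM_val, map_one, one_mul]
  have he1 : phi (s (k 1)) = 1 := by
    rcases phi_idem _ he with h | h
    · rw [h] at hu
      exact absurd hu (by decide +kernel)
    · exact h
  have huu : uu * uu = uu := by decide +kernel
  let N : Submodule R P :=
    { carrier := {p | phi (s p) * uu = phi (s p)}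
      add_mem' := by
        intro a b ha hb
        simp only [Set.mem_ofPred_eq] at ha hb ⊢
        rw [map_add, map_add, add_mul, ha, hb]
      zero_mem' := by simp
      smul_mem' := by
        intro c a ha
        simp only [Set.mem_ofPred_eq] at ha ⊢
        rw [map_smul, smul_eq_mul, map_mul, mul_assoc, ha] }
  have hN : N = ⊤ := by
    apply hs
    rw [eq_top_iff]
    intro p _
    obtain ⟨r, hr⟩ := phi_surj (phi (s p) * uu)
    have : p = (p - k r) + k r := by abel
    rw [this]
    refine Submodule.add_mem_sup ?_ ?_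
    · rw [LinearMap.mem_ker, map_sub, hk', sub_eq_zero, ← hs' p, hk']
      apply MM.ext
      rw [gM_val, gM_val, hr, mul_assoc, huu]
    · show phi (s (k r)) * uu = phi (s (k r))
      rw [hsk, map_mul, he1, mul_one, hr, mul_assoc, huu]
  have : k 1 ∈ N := hN ▸ Submodule.mem_top
  have h2 : phi (s (k 1)) * uu = phi (s (k 1)) := this
  rw [he1] at h2
  exact absurd h2 (by decide +kernel)

/-! ### Condition (N) -/

abbrev F := MonoidAlgebra (ZMod 2) G

noncomputable def repM {n : ℕ} (m : G →* Matrix (Fin n) (Fin n) ℤ) :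
    Representation ℚ G (Fin n → ℚ) where
  toFun g := Matrix.toLin' ((m g).map (Int.castRingHom ℚ))
  map_one' := by
    rw [map_one, Matrix.map_one _ (map_zero _) (map_one _), Matrix.toLin'_one]
    rfl
  map_mul' g h := by
    rw [map_mul, Matrix.map_mul, Matrix.toLin'_mul]
    rfl

lemma repM_apply {n : ℕ} (m : G →* Matrix (Fin n) (Fin n) ℤ) (g : G) (v : Fin n → ℚ) (i : Fin n) :
    repM m g v i = ∑ j, (m g i j : ℚ) * v j := by
  simp [repM, Matrix.mulVec, dotProduct]

def lat (n : ℕ) : Submodule Z2 (Fin n → ℚ) where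
  carrier := {v | ∀ i, v i ∈ Z2}
  add_mem' := fun ha hb i => Subring.add_mem _ (ha i) (hb i)
  zero_mem' := fun _ => Subring.zero_mem _
  smul_mem' := fun c _ hv i => Subring.mul_mem _ c.2 (hv i)

lemma single_mem_lat {n : ℕ} (i : Fin n) : (Pi.single i 1 : Fin n → ℚ) ∈ lat n := by
  intro j
  by_cases h : j = i
  · subst h
    simpa using Subring.one_mem _
  · simpa [h] using Subring.zero_mem _

lemma isRed_of {n : ℕ} (m : G →* Matrix (Fin n) (Fin n) ℤ) (irr : (repM m).IsIrreducible)
    (T : FGModuleCat.{0} F) (b : Fin n → T)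
    (hb : ∀ g j, MonoidAlgebra.of (ZMod 2) G g • b j = ∑ i, m g i j • b i)
    (hspan : ∀ v : T, ∃ c : Fin n → ZMod 2, v = ∑ i, algebraMap (ZMod 2) F (c i) • b i)
    (hind : ∀ c : Fin n → ZMod 2, ∑ i, algebraMap (ZMod 2) F (c i) • b i = 0 → c = 0) :
    IsReduction 2 G T := by
  have hL : ∀ g, ∀ v ∈ lat n, repM m g v ∈ lat n := by
    intro g v hv i
    rw [repM_apply]
    exact Subring.sum_mem _ fun j _ => Subring.mul_mem _ (intCast_mem _ _) (hv j)
  refine ⟨Fin n → ℚ, inferInstance, inferInstance, repM m,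
    (Representation.irreducible_iff_isSimpleModule_asModule _).1 irr, lat n, ⟨?_, ?_, hL⟩,
    { toFun := fun v => ∑ i, algebraMap (ZMod 2) F (red ⟨v.1 i, v.2 i⟩) • b i
      map_zero' := ?_
      map_add' := ?_ }, ⟨?_, ?_⟩, ?_⟩
  · refine ⟨Finset.univ.image fun i => (Pi.single i 1 : Fin n → ℚ), le_antisymm ?_ ?_⟩
    · rw [Submodule.span_le]
      intro v hv
      obtain ⟨i, -, rfl⟩ := Finset.mem_image.1 hv
      exact single_mem_lat i
    · intro v hv
      have : v = ∑ i, (⟨v i, hv i⟩ : Z2) • (Pi.single i 1 : Fin n → ℚ) := by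
        ext j
        simp [Finset.sum_apply, Pi.single_apply, Subring.smul_def]
      rw [this]
      exact Submodule.sum_mem _ fun i _ => Submodule.smul_mem _ _
        (Submodule.subset_span (by simp))
  · rw [eq_top_iff]
    intro v _
    have : v = ∑ i, v i • (Pi.single i 1 : Fin n → ℚ) := by
      ext j
      simp [Finset.sum_apply, Pi.single_apply]
    rw [this]
    exact Submodule.sum_mem _ fun i _ => Submodule.smul_mem _ _
      (Submodule.subset_span (single_mem_lat i))
  · refine Finset.sum_eq_zero fun i _ => ?_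
    have : (⟨(0 : lat n).1 i, (0 : lat n).2 i⟩ : Z2) = 0 := rfl
    rw [this, map_zero, map_zero, zero_smul]
  · intro v w
    rw [← Finset.sum_add_distrib]
    refine Finset.sum_congr rfl fun i _ => ?_
    have : (⟨(v + w).1 i, (v + w).2 i⟩ : Z2) = ⟨v.1 i, v.2 i⟩ + ⟨w.1 i, w.2 i⟩ := rfl
    rw [this, map_add, map_add, add_smul]
  · intro t
    obtain ⟨c, rfl⟩ := hspan t
    refine ⟨⟨fun i => ((c i).val : ℚ), fun i => natCast_mem _ _⟩, ?_⟩
    show ∑ i, algebraMap (ZMod 2) F (red ((c i).val : Z2)) • b i = _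
    simp only [map_natCast red, ZMod.natCast_zmod_val]
  · intro v
    constructor
    · intro h
      have h1 := hind _ h
      have h2 : ∀ i, ∃ w : Z2, (⟨v.1 i, v.2 i⟩ : Z2) = 2 * w :=
        fun i => (red_eq_zero _).1 (congrFun h1 i)
      choose w hw using h2
      refine ⟨⟨fun i => w i, fun i => (w i).2⟩, Subtype.ext (funext fun i => ?_)⟩
      have := congrArg Subtype.val (hw i)
      have h3 : ((2 : Z2) : ℚ) = 2 := rfl
      rw [Subring.coe_mul, h3] at this
      simpa using this
    · rintro ⟨w, rfl⟩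
      show ∑ i, algebraMap (ZMod 2) F (red ⟨(2 • w).1 i, (2 • w).2 i⟩) • b i = 0
      refine Finset.sum_eq_zero fun i _ => ?_
      have : red ⟨(2 • w).1 i, (2 • w).2 i⟩ = 0 := by
        rw [red_eq_zero]
        refine ⟨⟨w.1 i, w.2 i⟩, Subtype.ext ?_⟩
        have h3 : ((2 : Z2) : ℚ) = 2 := rfl
        rw [Subring.coe_mul, h3]
        simp
      rw [this, map_zero, zero_smul]
  · rintro g v ⟨w, hw⟩ rfl
    show ∑ i, algebraMap (ZMod 2) F (red ⟨repM m g v.1 i, hL g v.1 v.2 i⟩) • b i =
      MonoidAlgebra.of (ZMod 2) G g • ∑ i, algebraMap (ZMod 2) F (red ⟨v.1 i, v.2 i⟩) • b i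
    have h1 : ∀ i, (⟨repM m g v.1 i, hL g v.1 v.2 i⟩ : Z2) =
        ∑ j, (m g i j : Z2) * ⟨v.1 j, v.2 j⟩ := by
      intro i
      apply Subtype.ext
      simp [repM_apply]
    simp only [h1, map_sum, map_mul, map_intCast, Finset.sum_smul, Finset.smul_sum]
    rw [Finset.sum_comm]
    refine Finset.sum_congr rfl fun j _ => ?_
    rw [← mul_smul, ← Algebra.commutes, mul_smul, hb, Finset.smul_sum]
    refine Finset.sum_congr rfl fun i _ => ?_
    rw [← Int.cast_smul_eq_zsmul F, ← mul_smul, Int.cast_comm]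

def mF : G → Matrix (Fin 2) (Fin 2) ℤ
  | .a i => (!![-1, 1; -1, 0] : Matrix (Fin 2) (Fin 2) ℤ) ^ i.val
  | .xa i => (!![1, -1; 0, -1] : Matrix (Fin 2) (Fin 2) ℤ) * (!![-1, 1; -1, 0] : Matrix (Fin 2) (Fin 2) ℤ) ^ i.val

def m2 : G →* Matrix (Fin 2) (Fin 2) ℤ where
  toFun := mF
  map_one' := by decide +kernel
  map_mul' := by decide +kernel

lemma irr_of {n : ℕ} (m : G →* Matrix (Fin n) (Fin n) ℤ) (hn : 0 < n)
    (h : ∀ W : Submodule ℚ (Fin n → ℚ), (∀ g, ∀ v ∈ W, repM m g v ∈ W) → W ≠ ⊥ → W = ⊤) :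
    (repM m).IsIrreducible := by
  haveI : Nonempty (Fin n) := ⟨⟨0, hn⟩⟩
  have hne : (⊥ : Subrepresentation (repM m)) ≠ ⊤ := by
    intro h
    have := congrArg Subrepresentation.toSubmodule h
    exact (bot_ne_top : (⊥ : Submodule ℚ (Fin n → ℚ)) ≠ ⊤) this
  haveI : Nontrivial (Subrepresentation (repM m)) := ⟨⟨_, _, hne⟩⟩
  refine ⟨fun W => ?_⟩
  by_cases hW : W.toSubmodule = ⊥
  · left
    exact Subrepresentation.toSubmodule_injective hW
  · right
    exact Subrepresentation.toSubmodule_injective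
      (h _ (fun g v hv => W.apply_mem_toSubmodule g hv) hW)

lemma irr1 : (repM (1 : G →* Matrix (Fin 1) (Fin 1) ℤ)).IsIrreducible := by
  refine irr_of _ one_pos fun W _ hW => ?_
  obtain ⟨v, hv, h0⟩ := (Submodule.ne_bot_iff _).1 hW
  have h1 : v 0 ≠ 0 := fun h => h0 (funext fun i => by rw [Subsingleton.elim i 0, h]; rfl)
  rw [eq_top_iff]
  intro w _
  have : w = (w 0 / v 0) • v := by
    ext i
    rw [Subsingleton.elim i 0]
    simp [h1]
  rw [this]
  exact W.smul_mem _ hv

lemma irr2 : (repM m2).IsIrreducible := by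
  refine irr_of _ two_pos fun W hs hW => ?_
  obtain ⟨v, hv, h0⟩ := (Submodule.ne_bot_iff _).1 hW
  have h1 := hs (.a 1) v hv
  have hm : m2 (.a 1) = !![-1, 1; -1, 0] := by decide +kernel
  have hD : v 0 * v 0 - v 0 * v 1 + v 1 * v 1 ≠ 0 := by
    intro h
    apply h0
    have a0 : v 0 = 0 := by nlinarith [sq_nonneg (v 0 - v 1), sq_nonneg (v 0), sq_nonneg (v 1)]
    have a1 : v 1 = 0 := by nlinarith [sq_nonneg (v 0 - v 1), sq_nonneg (v 0), sq_nonneg (v 1)]
    ext i
    fin_cases i
    exacts [a0, a1]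
  rw [eq_top_iff]
  intro w _
  have : (v 0 * v 0 - v 0 * v 1 + v 1 * v 1) • w = (w 0 * v 0 + w 1 * (v 1 - v 0)) • v
      + (w 0 * v 1 - w 1 * v 0) • repM m2 (.a 1) v := by
    ext i
    rw [Pi.add_apply, Pi.smul_apply, Pi.smul_apply, Pi.smul_apply, repM_apply, hm]
    fin_cases i <;> simp [Fin.sum_univ_two] <;> ring
  rw [← W.smul_mem_iff hD, this]
  exact W.add_mem (W.smul_mem _ hv) (W.smul_mem _ h1)

section simple

variable {T : Type} [AddCommGroup T] [Module F T]

noncomputable def sg (g : G) (v : T) : T := MonoidAlgebra.of (ZMod 2) G g • v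

lemma sg_mul (g h : G) (v : T) : sg (g * h) v = sg g (sg h v) := by
  simp only [sg, map_mul, mul_smul]

lemma sg_one (v : T) : sg 1 v = v := by simp only [sg, map_one, one_smul]

lemma sg_add (g : G) (v w : T) : sg g (v + w) = sg g v + sg g w := smul_add _ _ _

lemma sg_zero (g : G) : sg g (0 : T) = 0 := smul_zero _

lemma add_self (v : T) : v + v = 0 := by
  have : (1 + 1 : F) = 0 := by
    rw [← map_one (algebraMap (ZMod 2) F), ← map_add]
    exact map_zero _
  rw [← one_smul F v, ← add_smul, this, zero_smul]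

lemma dich [IsSimpleModule F T] (W : AddSubmonoid T) (hW : ∀ g, ∀ v ∈ W, sg g v ∈ W) :
    (∀ v ∈ W, v = 0) ∨ ∀ v, v ∈ W := by
  let N : Submodule F T :=
    { W with
      smul_mem' := by
        intro c v hv
        induction c using MonoidAlgebra.induction_linear with
        | zero => rw [zero_smul]; exact W.zero_mem
        | add a b ha hb => rw [add_smul]; exact W.add_mem ha hb
        | single g c =>
          have : c = 0 ∨ c = 1 := by revert c; decide
          rcases this with rfl | rfl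
          · rw [MonoidAlgebra.single_zero, zero_smul]; exact W.zero_mem
          · exact hW g v hv }
  rcases eq_bot_or_eq_top N with h | h
  · left
    intro v hv
    have : v ∈ N := hv
    rwa [h] at this
  · right
    intro v
    have : v ∈ N := h ▸ Submodule.mem_top
    exact this

def fixed (T : Type) [AddCommGroup T] [Module F T] (g : G) : AddSubmonoid T where
  carrier := {v | sg g v = v}
  add_mem' := by
    intro a b ha hb
    simp only [Set.mem_ofPred_eq] at ha hb ⊢
    rw [sg_add, ha, hb]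
  zero_mem' := sg_zero g

lemma exists_fixed [Nontrivial T] (g : G) (h : ∀ v : T, sg (g * g) v = v) :
    ∃ v : T, v ≠ 0 ∧ sg g v = v := by
  obtain ⟨w, hw⟩ := exists_ne (0 : T)
  by_cases h1 : sg g w = w
  · exact ⟨w, hw, h1⟩
  · refine ⟨w + sg g w, fun h2 => h1 ?_, ?_⟩
    · rw [← zero_add (sg g w), ← add_self w, add_assoc, h2, add_zero]
    · rw [sg_add, ← sg_mul, h, add_comm]

lemma gen_ind (P : G → Prop) (h1 : P (.a 2)) (h2 : P (.a 3)) (h3 : P (.xa 0))
    (hm : ∀ g h, P g → P h → P (g * h)) (g : G) : P g := by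
  have a4 : P (.a 4) := hm _ _ h1 h1
  have a0 : P (.a 0) := hm _ _ h2 h2
  have a1 : P (.a 1) := hm _ _ h2 a4
  have a5 : P (.a 5) := hm _ _ h2 h1
  have ha : ∀ i, P (.a i) := by
    intro i
    have : i = 0 ∨ i = 1 ∨ i = 2 ∨ i = 3 ∨ i = 4 ∨ i = 5 := by revert i; decide
    rcases this with rfl | rfl | rfl | rfl | rfl | rfl <;> assumption
  cases g with
  | a i => exact ha i
  | xa i => simpa using hm _ _ h3 (ha i)

lemma smul_cases (c : ZMod 2) (v : T) :
    (c = 0 ∧ algebraMap (ZMod 2) F c • v = 0) ∨ (c = 1 ∧ algebraMap (ZMod 2) F c • v = v) := by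
  have : c = 0 ∨ c = 1 := by revert c; decide
  rcases this with rfl | rfl
  · left
    simp
  · right
    rw [map_one, one_smul]
    exact ⟨rfl, rfl⟩

end simple

lemma simple_red (T : FGModuleCat.{0} F) [IsSimpleModule F T] : IsReduction 2 G T := by
  haveI : Nontrivial T := IsSimpleModule.nontrivial F T
  have hz : ∀ v : T, sg (.a 3) v = v := by
    obtain ⟨v, h0, hv⟩ := exists_fixed (T := T) (.a 3) fun v => sg_one v
    rcases dich (fixed T (.a 3)) (fun g v hv => by
      have : (.a 3 : G) * g = g * .a 3 := by revert g; decide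
      show sg _ (sg g v) = sg g v
      rw [← sg_mul, this, sg_mul, hv]) with h | h
    · exact absurd (h v hv) h0
    · exact h
  obtain ⟨v, h0, hv⟩ := exists_fixed (T := T) (.xa 0) hz
  rcases dich (fixed T (.a 2)) (fun g v hv => by
      have : (.a 2 : G) * g = g * .a 2 ∨ (.a 2 : G) * g = g * .a 2 * .a 2 := by revert g; decide
      have hv' : sg (.a 2) v = v := hv
      show sg _ (sg g v) = sg g v
      rcases this with h | h
      · rw [← sg_mul, h, sg_mul, hv']
      · rw [← sg_mul, h, sg_mul, sg_mul, hv', hv']) with h | h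
  · have ht3 : ∀ w : T, sg (.a 2) (sg (.a 2) (sg (.a 2) w)) = w := by
      intro w
      rw [← sg_mul, ← sg_mul]
      exact sg_one w
    have hsum : v + sg (.a 2) v + sg (.a 2) (sg (.a 2) v) = 0 := by
      apply h
      show sg _ _ = _
      rw [sg_add, sg_add, ht3]
      abel
    have htt : sg (.a 2) (sg (.a 2) v) = -v - sg (.a 2) v := by
      rw [← sub_eq_zero, ← hsum]
      abel
    have hst : sg (.xa 0) (sg (.a 2) v) = -v - sg (.a 2) v := by
      have : (.xa 0 : G) * .a 2 = .a 2 * .a 2 * .xa 0 := by decide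
      rw [← sg_mul, this, sg_mul, sg_mul, hv, htt]
    have hb : ∀ g j, MonoidAlgebra.of (ZMod 2) G g • (![v, sg (.a 2) v] : Fin 2 → T) j
        = ∑ i, m2 g i j • (![v, sg (.a 2) v] : Fin 2 → T) i := by
      intro g
      induction g using gen_ind with
      | h1 =>
        have hm : m2 (.a 2) = !![0, -1; 1, -1] := by decide +kernel
        intro j
        change sg _ _ = _
        fin_cases j <;> simp [hm, htt, sub_eq_add_neg]
      | h2 =>
        have hm : m2 (.a 3) = !![1, 0; 0, 1] := by decide +kernel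
        intro j
        change sg _ _ = _
        fin_cases j <;> simp [hm, hz]
      | h3 =>
        have hm : m2 (.xa 0) = !![1, -1; 0, -1] := by decide +kernel
        intro j
        change sg _ _ = _
        fin_cases j <;> simp [hm, hv, hst, sub_eq_add_neg]
      | hm g h hg hh =>
        intro j
        rw [map_mul, mul_smul, hh, Finset.smul_sum]
        simp only [smul_comm (MonoidAlgebra.of (ZMod 2) G g), hg, Finset.smul_sum, map_mul,
          Matrix.mul_apply, Finset.sum_smul, smul_smul]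
        rw [Finset.sum_comm]
        simp only [mul_comm]
    refine isRed_of m2 irr2 T ![v, sg (.a 2) v] hb ?_ ?_
    · let W : AddSubmonoid T :=
        { carrier := {w | ∃ c : Fin 2 → ZMod 2,
            w = ∑ i, algebraMap (ZMod 2) F (c i) • (![v, sg (.a 2) v] : Fin 2 → T) i}
          add_mem' := by
            rintro _ _ ⟨c, rfl⟩ ⟨d, rfl⟩
            exact ⟨c + d, by simp only [Pi.add_apply, map_add, add_smul, Finset.sum_add_distrib]⟩
          zero_mem' := ⟨0, by simp⟩ }
      rcases dich W (by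
        rintro g _ ⟨c, rfl⟩
        refine ⟨fun i => ∑ j, (m2 g i j : ZMod 2) * c j, ?_⟩
        show MonoidAlgebra.of (ZMod 2) G g • _ = _
        simp only [map_sum, map_mul, map_intCast, Finset.sum_smul, Finset.smul_sum]
        rw [Finset.sum_comm]
        refine Finset.sum_congr rfl fun j _ => ?_
        rw [← mul_smul, ← Algebra.commutes, mul_smul, hb, Finset.smul_sum]
        refine Finset.sum_congr rfl fun i _ => ?_
        rw [← Int.cast_smul_eq_zsmul F, ← mul_smul, Int.cast_comm]) with h | h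
      · exact absurd (h v ⟨![1, 0], by simp [← MonoidAlgebra.one_def]⟩) h0
      · exact h
    · intro c hc
      have h1 : sg (.a 2) v ≠ 0 := fun h => h0 (by rw [← ht3 v, h, sg_zero, sg_zero])
      have h2 : v + sg (.a 2) v ≠ 0 := fun h2 => h0 (by
        rw [h2, zero_add] at hsum
        rw [← ht3 v, hsum, sg_zero])
      rw [Fin.sum_univ_two] at hc
      rcases smul_cases (c 0) v with ⟨a0, a1⟩ | ⟨a0, a1⟩ <;>
        rcases smul_cases (c 1) (sg (.a 2) v) with ⟨b0, b1⟩ | ⟨b0, b1⟩ <;>
        simp only [Matrix.cons_val_zero, Matrix.cons_val_one, a1, b1, zero_add, add_zero] at hc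
      · ext i
        fin_cases i
        exacts [a0, b0]
      · exact absurd hc h1
      · exact absurd hc h0
      · exact absurd hc h2
  · have hall : ∀ g, sg g v = v := fun g => gen_ind (fun g => sg g v = v) (h v) (hz v) hv
      (fun g h hg hh => by rw [sg_mul, hh, hg]) g
    refine isRed_of 1 irr1 T (fun _ => v) (fun g j => ?_) ?_ ?_
    · rw [Subsingleton.elim j 0]
      simpa [sg] using hall g
    · let W : AddSubmonoid T :=
        { carrier := {w | ∃ c : Fin 1 → ZMod 2, w = ∑ i, algebraMap (ZMod 2) F (c i) • v}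
          add_mem' := by
            rintro _ _ ⟨c, rfl⟩ ⟨d, rfl⟩
            exact ⟨c + d, by simp only [Pi.add_apply, map_add, add_smul, Finset.sum_add_distrib]⟩
          zero_mem' := ⟨0, by simp⟩ }
      rcases dich W (by
        rintro g _ ⟨c, rfl⟩
        refine ⟨c, ?_⟩
        rw [Fin.sum_univ_one]
        rcases smul_cases (c 0) v with ⟨-, a1⟩ | ⟨-, a1⟩ <;> rw [a1]
        exacts [sg_zero g, hall g]) with h | h
      · exact absurd (h v ⟨![1], by simp [← MonoidAlgebra.one_def]⟩) h0
      · exact h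
    · intro c hc
      rw [Fin.sum_univ_one] at hc
      rcases smul_cases (c 0) v with ⟨a0, a1⟩ | ⟨a0, a1⟩
      · ext i
        rw [Subsingleton.elim i 0]
        exact a0
      · exact absurd (a1.symm.trans hc) h0

lemma cls_ses {R : Type} [Ring R] (A B C : FGModuleCat.{0} R) (f : A →ₗ[R] B) (g : B →ₗ[R] C)
    (hf : Injective f) (hg : Surjective g) (h : Exact f g) : cls B = cls A + cls C := by
  have : (QuotientAddGroup.mk (FreeAbelianGroup.of B - FreeAbelianGroup.of A -
      FreeAbelianGroup.of C) : G0 R) = 0 :=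
    (QuotientAddGroup.eq_zero_iff _).2 (AddSubgroup.subset_closure ⟨A, B, C, f, g, hf, hg, h, rfl⟩)
  rw [QuotientAddGroup.mk_sub, QuotientAddGroup.mk_sub, sub_sub, sub_eq_zero] at this
  exact this

lemma all_red (n : ℕ) : ∀ M : FGModuleCat.{0} F, Nat.card M = n →
    cls M ∈ AddSubmonoid.closure {x | ∃ M : FGModuleCat.{0} F, IsReduction 2 G M ∧ x = cls M} := by
  haveI : Finite F := Module.finite_of_finite (ZMod 2)
  induction n using Nat.strong_induction_on with
  | _ n ih =>
    intro M hM
    haveI : Finite M := Module.finite_of_finite F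
    rcases subsingleton_or_nontrivial M with h | h
    · have := cls_ses M M M LinearMap.id LinearMap.id injective_id surjective_id
        (fun y => ⟨fun _ => ⟨y, rfl⟩, fun _ => Subsingleton.elim _ _⟩)
      rw [left_eq_add] at this
      rw [this]
      exact AddSubmonoid.zero_mem _
    · obtain ⟨N, hN, -⟩ := (eq_top_or_exists_le_coatom (⊥ : Submodule F M)).resolve_left bot_ne_top
      haveI : IsSimpleModule F (M ⧸ N) := isSimpleModule_iff_isCoatom.2 hN
      rw [cls_ses (FGModuleCat.of F N) M (FGModuleCat.of F (M ⧸ N)) N.subtype N.mkQ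
        N.injective_subtype N.mkQ_surjective (LinearMap.exact_subtype_mkQ N)]
      refine AddSubmonoid.add_mem _ (ih _ ?_ _ rfl)
        (AddSubmonoid.subset_closure ⟨_, simple_red _, rfl⟩)
      rw [← hM]
      obtain ⟨x, hx⟩ : ∃ x : M, x ∉ N := by
        by_contra hc
        push Not at hc
        exact hN.1 (eq_top_iff.2 fun x _ => hc x)
      exact Finite.card_subtype_lt hx

theorem result : Finite (QuaternionGroup 3) ∧ CondN 2 (QuaternionGroup 3) ∧
    ¬ Semiperfect (MonoidAlgebra (Zloc 2) (QuaternionGroup 3)) ∧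
    ¬ HasProjectiveCovers.{u} (MonoidAlgebra (Zloc 2) (QuaternionGroup 3)) :=
  ⟨inferInstance, fun P _ _ => all_red _ P rfl, not_semiperfect, no_cover⟩

end Pool.Agent.Results.MP_70eb0a_al.DicyclicNotSemiperfect
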